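import Pool.Agent.Helper7.Irred
import Pool.Agent.Helper7.U.UF

/-!
The Lie algebra of symmetries of a de Rham-Betti class acts irreducibly on the eigenspaces of a
field of endomorphisms which is its own centraliser.
-/

namespace Pool.Agent.Helper7

open Module NumberField

section family

variable {I : Type} [Fintype I] [DecidableEq I] (n : I → ℕ)
  {κ : I → Type} [∀ i, Fintype (κ i)] [∀ i, DecidableEq (κ i)] {ϖ : ℂ}
  (P : ∀ i, PData (κ i) ϖ)
  {k : ℕ} (α : MultilinearMap ℂ (fun _ : Fin (2 * k) => HW κ n) ℂ)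
  (i : I) {K : Type} [Field K] [NumberField K] {r : ℕ} (F : UF (P i) K r)

omit [Fintype I] [DecidableEq I] in
lemma UF.comm_of_isInv {X : GG κ} (hX : IsInv n P α X) : F.Comm (X.1 i) :=
  fun x v => hX.comm i i _ (F.hρ x) v

/-- matrices over the number field of the rational symmetries -/
def UF.matSet : Set (Matrix (Fin r) (Fin r) K) :=
  {m | ∃ X, IsInv n P α X ∧ IsRatl P X ∧
    ∀ b, X.1 i (F.lam b) = ∑ a, F.ρ (m a b) (F.lam a)}

variable (hϖ : ϖ ≠ 0)
  (hB : ∀ v : Fin (2 * k) → HW κ n, (∀ r, IsRatP n P (v r)) → ∃ q : ℚ, α v = ϖ ^ k * q)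
  (hA : ∀ v : Fin (2 * k) → HW κ n, (∀ r i m j, IsAlgebraic ℚ (v r i m j)) →
      IsAlgebraic ℚ (α v))

include hϖ hB hA in
lemma UF.matSet_comm (t : Matrix (Fin r) (Fin r) K)
    (ht : ∀ m ∈ F.matSet n P α i, m * t = t * m) : ∃ c : K, t = c • 1 := by
  classical
  have h1 : IsDRB (P i) (P i) (F.ofMat t) := by
    refine isDRB_of_rat_comm n P α hϖ hB hA i i _ (fun v hv => F.ofMat_rat t v hv) ?_
    intro Y hY hYr v
    obtain ⟨m, hm⟩ := F.exists_matK (Y.1 i) (hYr.1 i)
    have hmt := ht m ⟨Y, hY, hYr, hm⟩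
    refine F.ext_e ((Y.1 i) ∘ₗ (F.ofMat t)) ((F.ofMat t) ∘ₗ (Y.1 i)) (fun σ b => ?_) v
    have h2 : ∀ b, Y.1 i (F.e σ b) = ∑ a, σ (m a b) • F.e σ a :=
      fun b => F.act_e (Y.1 i) (F.comm_of_isInv n P α i hY) m hm σ b
    rw [LinearMap.comp_apply, LinearMap.comp_apply, F.ofMat_e, h2, map_sum, map_sum]
    simp only [map_smul, h2, F.ofMat_e, Finset.smul_sum, smul_smul, ← map_mul]
    rw [Finset.sum_comm, Finset.sum_comm (f := fun x y => σ (m x b * t y x) • F.e σ y)]
    refine Finset.sum_congr rfl fun a _ => ?_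
    rw [← Finset.sum_smul, ← Finset.sum_smul, ← map_sum, ← map_sum]
    congr 2
    have h3 := congrFun (congrFun hmt a) b
    rw [Matrix.mul_apply, Matrix.mul_apply] at h3
    rw [← Finset.sum_congr rfl fun c _ => mul_comm (t a c) (m c b)]
    rw [← h3]
    exact Finset.sum_congr rfl fun c _ => mul_comm _ _
  obtain ⟨x, hx⟩ := F.hcen _ h1 (fun x v => F.ofMat_comm t x v)
  refine ⟨x, ?_⟩
  have σ : K →+* ℂ := Classical.choice (inferInstance : Nonempty (K →+* ℂ))
  ext a b
  have h2 := congrArg (F.co σ a) (hx (F.e σ b))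
  rw [F.ofMat_e, F.rho_e, map_sum, map_smul, Finset.sum_eq_single a] at h2
  · rw [map_smul, F.co_e, F.co_e, if_pos ⟨rfl, rfl⟩, smul_eq_mul, mul_one, smul_eq_mul] at h2
    rw [Matrix.smul_apply, Matrix.one_apply]
    apply σ.injective
    rw [h2]
    by_cases hab : a = b
    · simp [hab]
    · simp [hab]
  · intro a' _ ha'
    rw [map_smul, F.co_e, if_neg (fun h => ha' h.2.symm), smul_zero]
  · intro h; exact absurd (Finset.mem_univ _) h

/-- the rational vectors given by a subspace over the number field -/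
def UF.ratSub (U : Submodule K (Fin r → K)) : Submodule ℚ (κ i → ℂ) where
  carrier := {v | ∃ x ∈ U, F.vec x = v}
  zero_mem' := ⟨0, U.zero_mem, by
    have h := F.vec_smul 0 0
    rw [zero_smul, map_zero, LinearMap.zero_apply] at h
    exact h⟩
  add_mem' := by
    rintro _ _ ⟨x, hx, rfl⟩ ⟨y, hy, rfl⟩
    exact ⟨x + y, U.add_mem hx hy, F.vec_add x y⟩
  smul_mem' := by
    rintro q _ ⟨x, hx, rfl⟩
    refine ⟨(q : K) • x, U.smul_mem _ hx, ?_⟩
    rw [F.vec_smul]
    have h1 : (q : K) = q • (1 : K) := by rw [Algebra.smul_def, mul_one, eq_ratCast]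
    rw [h1, rho_ratsmul, map_one, LinearMap.smul_apply, Module.End.one_apply,
      ← algebraMap_smul ℂ q (F.vec x), eq_ratCast]

include hϖ hB hA in
lemma UF.matSet_irr (U : Submodule K (Fin r → K))
    (hU : ∀ m ∈ F.matSet n P α i, ∀ v ∈ U, m.mulVec v ∈ U) : U = ⊥ ∨ U = ⊤ := by
  classical
  obtain ⟨S, hS⟩ : ∃ S, S = F.ratSub P i U := ⟨_, rfl⟩
  have hSmem : ∀ v, v ∈ S ↔ ∃ x ∈ U, F.vec x = v := fun v => by rw [hS]; exact Iff.rfl
  have hSQ : S ≤ (P i).Q := by
    intro v hv
    obtain ⟨x, -, rfl⟩ := (hSmem v).mp hv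
    exact F.vec_rat x
  have hstab : ∀ Y, IsInv n P α Y → IsRatl P Y → ∀ x ∈ U, ∃ y ∈ U, Y.1 i (F.vec x) = F.vec y := by
    intro Y hY hYr x hx
    obtain ⟨m, hm⟩ := F.exists_matK (Y.1 i) (hYr.1 i)
    exact ⟨m.mulVec x, hU m ⟨Y, hY, hYr, hm⟩ x hx,
      F.vec_act (Y.1 i) (F.comm_of_isInv n P α i hY) m hm x⟩
  have hnd := F.hnd S hSQ (algebraic_of_stable n P α hϖ hB hA i S (fun v hv => hSQ hv)
    (fun Y hY hYr v hv => by
      obtain ⟨x, hx, rfl⟩ := (hSmem v).mp hv
      obtain ⟨y, hy, hxy⟩ := hstab Y hY hYr x hx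
      rw [hxy]
      exact Submodule.subset_span ((hSmem _).mpr ⟨y, hy, rfl⟩)))
  -- the orthogonal complement
  obtain ⟨S', hcompl, hS'⟩ := isCompl_of_nondeg (P i) hϖ (S.comap (P i).Q.subtype)
    (fun u hu h => by
      apply Subtype.ext
      exact hnd u hu (fun v hv => h ⟨v, hSQ hv⟩ hv))
  let U' : Submodule K (Fin r → K) :=
    { carrier := {x | ∀ y ∈ U, (P i).ψ (F.vec y) (F.vec x) = 0}
      zero_mem' := by
        intro y _
        have h : F.vec 0 = 0 := by
          have h := F.vec_smul 0 0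
          rw [zero_smul, map_zero, LinearMap.zero_apply] at h
          exact h
        rw [h, map_zero]
      add_mem' := by
        intro a b ha hb y hy
        rw [F.vec_add, map_add, ha y hy, hb y hy, add_zero]
      smul_mem' := by
        intro c x hx y hy
        rw [F.vec_smul, ← F.cc_cc c, ← F.hros, ← F.vec_smul]
        exact hx _ (U.smul_mem _ hy) }
  have hU' : ∀ x, x ∈ U' ↔ ∀ y ∈ U, (P i).ψ (F.vec y) (F.vec x) = 0 := fun x => Iff.rfl
  have hUU' : IsCompl U U' := by
    constructor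
    · rw [Submodule.disjoint_def]
      intro x hx hx'
      have h1 : F.vec x = 0 := by
        refine hnd _ ((hSmem _).mpr ⟨x, hx, rfl⟩) (fun v hv => ?_)
        obtain ⟨y, hy, rfl⟩ := (hSmem v).mp hv
        rw [(P i).hψalt, (hU' x).mp hx' y hy, neg_zero]
      apply F.vec_injective
      rw [h1]
      have h := F.vec_smul 0 0
      rw [zero_smul, map_zero, LinearMap.zero_apply] at h
      exact h.symm
    · rw [codisjoint_iff, eq_top_iff]
      intro x _
      have h1 : (⟨F.vec x, F.vec_rat x⟩ : (P i).Q) ∈ S.comap (P i).Q.subtype ⊔ S' := by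
        rw [hcompl.sup_eq_top]; exact Submodule.mem_top
      rw [Submodule.mem_sup] at h1
      obtain ⟨a, ha, b, hb, hab⟩ := h1
      obtain ⟨y, hy, hya⟩ := (hSmem _).mp ha
      have hya' : F.vec y = (a : κ i → ℂ) := hya
      have h2 : F.vec (x - y) = b := by
        have h3 := congrArg Subtype.val hab
        have h4 : (a : κ i → ℂ) + b = F.vec x := h3
        have h5 : F.vec x = F.vec (x - y) + F.vec y := by
          rw [← F.vec_add, sub_add_cancel]
        rw [h5, hya', add_comm] at h4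
        exact (add_right_cancel h4).symm
      rw [Submodule.mem_sup]
      refine ⟨y, hy, x - y, ?_, by abel⟩
      rw [hU']
      intro z hz
      rw [h2]
      exact (hS' b).mp hb ⟨F.vec z, F.vec_rat z⟩ ((hSmem _).mpr ⟨z, hz, rfl⟩)
  -- the complement is stable
  have hU'stab : ∀ m ∈ F.matSet n P α i, ∀ v ∈ U', m.mulVec v ∈ U' := by
    rintro m ⟨Y, hY, hYr, hm⟩ v hv
    rw [hU'] at hv ⊢
    intro y hy
    rw [← F.vec_act (Y.1 i) (F.comm_of_isInv n P α i hY) m hm]
    have h1 := hY.pol i (F.vec y) (F.vec v)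
    obtain ⟨z, hz, hyz⟩ := hstab Y hY hYr y hy
    rw [hyz, hv z hz, hv y hy, zero_add, mul_zero] at h1
    exact h1
  -- the projector
  obtain ⟨p, hp⟩ : ∃ p : Module.End K (Fin r → K), p = U.projection U' hUU' := ⟨_, rfl⟩
  have hpU : ∀ x, p x ∈ U := fun x => by rw [hp]; exact Submodule.projection_apply_mem hUU' x
  have hpid : ∀ x ∈ U, p x = x :=
    fun x hx => by rw [hp]; exact Submodule.projection_apply_of_mem_left hUU' hx
  have hp0 : ∀ x ∈ U', p x = 0 :=
    fun x hx => by rw [hp]; exact (Submodule.projection_apply_eq_zero_iff hUU').mpr hx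
  have hpx : ∀ x, x - p x ∈ U' := by
    intro x
    rw [← Submodule.projection_apply_eq_zero_iff hUU', ← hp, map_sub, hpid _ (hpU x), sub_self]
  obtain ⟨c, hc⟩ := F.matSet_comm n P α i hϖ hB hA (LinearMap.toMatrix' p) (by
    intro m hm
    apply Matrix.toLin'.injective
    rw [Matrix.toLin'_mul, Matrix.toLin'_mul, Matrix.toLin'_toMatrix']
    apply LinearMap.ext
    intro x
    rw [LinearMap.comp_apply, LinearMap.comp_apply, Matrix.toLin'_apply, Matrix.toLin'_apply]
    have h1 : m.mulVec x = m.mulVec (p x) + m.mulVec (x - p x) := by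
      rw [← Matrix.mulVec_add]; congr 1; abel
    rw [h1, map_add, hpid _ (hU m hm _ (hpU x)), hp0 _ (hU'stab m hm _ (hpx x)), add_zero])
  have hpc : ∀ x, p x = c • x := by
    intro x
    have h1 := congrArg (fun t => Matrix.toLin' t x) hc
    simp only [Matrix.toLin'_toMatrix', Matrix.toLin'_apply, Matrix.smul_mulVec,
      Matrix.one_mulVec] at h1
    exact h1
  by_cases hbot : U = ⊥
  · left; exact hbot
  right
  obtain ⟨w, hw, hw0⟩ := Submodule.exists_mem_ne_zero_of_ne_bot hbot
  have h1 := hpid w hw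
  rw [hpc] at h1
  have h2 : c = 1 := by
    have h3 : (c - 1) • w = 0 := by rw [sub_smul, h1, one_smul, sub_self]
    rcases smul_eq_zero.mp h3 with h4 | h4
    · exact sub_eq_zero.mp h4
    · exact absurd h4 hw0
  rw [eq_top_iff]
  intro x _
  have h3 := hpU x
  rw [hpc, h2, one_smul] at h3
  exact h3

include hϖ hB hA in
/-- irreducibility at the places -/
theorem UF.irred_place (σ : K →+* ℂ) (W : Submodule ℂ (κ i → ℂ))
    (hW : W ≤ Submodule.span ℂ (Set.range (F.e σ)))
    (hst : ∀ X, IsInv n P α X → ∀ v ∈ W, X.1 i v ∈ W) :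
    W = ⊥ ∨ W = Submodule.span ℂ (Set.range (F.e σ)) := by
  classical
  rcases Nat.eq_zero_or_pos r with hr0 | hr
  · left
    have : IsEmpty (Fin r) := by rw [hr0]; infer_instance
    rw [eq_bot_iff]
    refine hW.trans ?_
    rw [Set.range_eq_empty, Submodule.span_empty]
  let g : (Fin r → ℂ) →ₗ[ℂ] (κ i → ℂ) := Fintype.linearCombination ℂ (F.e σ)
  have hg : ∀ c, g c = ∑ j, c j • F.e σ j := fun c => Fintype.linearCombination_apply ℂ _ c
  have h1 := irr_base hr (F.matSet n P α i)
    (fun U hU => F.matSet_irr n P α i hϖ hB hA U hU)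
    (fun t ht => F.matSet_comm n P α i hϖ hB hA t ht) σ (W.comap g) (by
      rintro m ⟨Y, hY, hYr, hm⟩ c hc
      rw [Submodule.mem_comap] at hc ⊢
      have h2 := hst Y hY _ hc
      have h3 : Y.1 i (g c) = g ((m.map σ).mulVec c) := by
        rw [hg, hg, map_sum]
        simp only [map_smul, F.act_e (Y.1 i) (F.comm_of_isInv n P α i hY) m hm, Finset.smul_sum,
          smul_smul]
        rw [Finset.sum_comm]
        refine Finset.sum_congr rfl fun a _ => ?_
        rw [← Finset.sum_smul]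
        congr 1
        rw [Matrix.mulVec, dotProduct]
        exact Finset.sum_congr rfl fun b _ => mul_comm _ _
      rw [← h3]
      exact h2)
  have hrange : Submodule.span ℂ (Set.range (F.e σ)) = LinearMap.range g := by
    rw [Fintype.range_linearCombination]
  rcases h1 with h1 | h1
  · left
    rw [eq_bot_iff]
    intro v hv
    have h2 := hW hv
    rw [hrange] at h2
    obtain ⟨c, rfl⟩ := h2
    have h3 : c ∈ W.comap g := hv
    rw [h1, Submodule.mem_bot] at h3
    rw [h3, map_zero]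
    exact Submodule.zero_mem _
  · right
    refine le_antisymm hW ?_
    rw [hrange]
    rintro _ ⟨c, rfl⟩
    have h3 : c ∈ W.comap g := by rw [h1]; exact Submodule.mem_top
    exact h3

end family

end Pool.Agent.Helper7
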