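import Pool.Agent.Helper7.Types

/-!
Abelian varieties whose endomorphism algebra is a CM field of degree equal to the dimension.
-/

namespace Pool.Agent.GPC

/-- The endomorphism algebra of `A` is the CM field `K`, `[K : ℚ] = dim A`: the field `K` acts on
`H_1(A)` by `ρ` through endomorphisms of `A` (tensor `ℚ`), the Rosati involution is complex
conjugation on `K`, and every endomorphism of `A` (tensor `ℚ`) is in `K`. (Then `H_1(A, ℚ)` is a
vector space of dimension two over `K`.) -/
structure AbVar.IsUnitaryMult (A : AbVar) (K : Type) [Field K] [NumberField K]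
    [NumberField.IsCMField K] (ρ : K → A.H1 → A.H1) : Prop where
  one : ∀ v, ρ 1 v = v
  mul : ∀ x y v, ρ (x * y) v = ρ x (ρ y v)
  add : ∀ x y v, ρ (x + y) v = ρ x v + ρ y v
  degree : Module.finrank ℚ K = A.g
  endo : ∀ x, A.IsEnd (ρ x)
  rosati : ∀ x, A.IsAdjoint (ρ x) (ρ (cmConj K x))
  full : ∀ f, A.IsEnd f → ∃ x, ∀ v, f v = ρ x v

/-- `K` is a CM field which acts through `ρ` on `A` as in `IsUnitaryMult`. -/
def IsUnitaryType (A : AbVar) (K : Type) [Field K] [NumberField K] (ρ : K → A.H1 → A.H1) : Prop :=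
  ∃ _ : NumberField.IsCMField K, A.IsUnitaryMult K ρ

/-- The `σ`-eigenspace of `K` in `H_1(A)` is contained in the step `F^0` of the Hodge filtration or
meets it only in zero. If the eigenspace is of dimension two this means that the multiplicity of
`σ` in `Lie A = H_1(A) / F^0` is not one. -/
def AbVar.IsPureAt (A : AbVar) {K : Type} [Field K] (ρ : K → A.H1 → A.H1) (σ : K →+* ℂ) : Prop :=
  (∀ v, (∀ x, ρ x v = σ x • v) → A.IsFil v) ∨ (∀ v, (∀ x, ρ x v = σ x • v) → A.IsFil v → v = 0)

/-- The signatures at the complex places separate the places of the fields `K_i`, `i ∈ W`: for two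
embeddings of `K_i`, `K_j` which are neither equal nor complex conjugate some automorphism of `ℂ`
makes exactly one of them pure. If there are factors with real multiplication, then each `K_i`,
`i ∈ W`, has some pure embedding. -/
structure SignSeparated {I : Type} (A : I → AbVar) (K : I → Type) [∀ i, Field (K i)]
    (ρ : ∀ i, K i → (A i).H1 → (A i).H1) (S W : Finset I) : Prop where
  sep : ∀ i ∈ W, ∀ j ∈ W, ∀ (σ : K i →+* ℂ) (τ : K j →+* ℂ), (⟨j, τ⟩ : Emb K) ≠ ⟨i, σ⟩ →
    (⟨j, τ⟩ : Emb K) ≠ ⟨i, NumberField.ComplexEmbedding.conjugate σ⟩ →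
    ∃ g : ℂ ≃+* ℂ, ¬ ((A i).IsPureAt (ρ i) ((g : ℂ →+* ℂ).comp σ) ↔
      (A j).IsPureAt (ρ j) ((g : ℂ →+* ℂ).comp τ))
  pure : S.Nonempty → ∀ i ∈ W, ∃ σ : K i →+* ℂ, (A i).IsPureAt (ρ i) σ

end Pool.Agent.GPC
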