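import Pool.Agent.Helper7.U.Sgn
import Pool.Agent.Helper7.U.UTypes
import Pool.Agent.Helper84.Sign
import Pool.Agent.Helper7.J9
import Pool.Agent.Helper84.AutC

/-!
From abelian varieties to the abstract theorem on factors of rank two.
-/

open scoped ComplexConjugate

namespace Pool.Agent.Helper7

open Module NumberField Pool.Agent.GPC

set_option linter.unusedSectionVars false

section gram

variable {A : AbVar} {K : Type} [Field K] [NumberField K] (F : UF (pData A) K 2)

lemma cB_e (σ : K →+* ℂ) (b : Fin 2) :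
    cB (pData A) (F.e σ b) = F.e (ComplexEmbedding.conjugate σ) b := by
  rw [F.e_eq, F.e_eq, cB_proj (pData A) F.ρ (fun x v hv => (F.hρ x).rat v hv),
    cB_of_mem (pData A) _ (F.lam_rat b)]

lemma sq_gram (σ : K →+* ℂ) (v : Fin 2 → ℂ) :
    sq (FT.gram (.inl F) σ) v = (pData A).ψ (∑ a, v a • F.e σ a)
      (cB (pData A) (∑ a, v a • F.e σ a)) := by
  have h1 : cB (pData A) (∑ a, v a • F.e σ a) =
      ∑ b, conj (v b) • F.e (ComplexEmbedding.conjugate σ) b := by
    rw [Fin.sum_univ_two, cB_add, cB_smul, cB_smul, cB_e, cB_e, Fin.sum_univ_two]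
  have h2 : ∀ a b, FT.gram (.inl F) σ a b =
      (pData A).ψ (F.e σ a) (F.e (ComplexEmbedding.conjugate σ) b) := fun a b => rfl
  rw [h1, sq]
  simp only [h2, Fin.sum_univ_two, map_add, LinearMap.add_apply, map_smul, LinearMap.smul_apply,
    smul_eq_mul]
  ring

lemma aniso_gram (σ : K →+* ℂ) : Aniso (FT.gram (.inl F) σ) ↔ IsDefAt A F.ρ σ := by
  have hρ : ∀ x, A.IsEnd (F.ρ x) := fun x => isEnd_of_isDRB A _ (F.hρ x)
  have hpe : ∀ v : Fin 2 → ℂ, proj F.ρ σ (∑ a, v a • F.e σ a) = ∑ a, v a • F.e σ a := by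
    intro v
    rw [map_sum]
    refine Finset.sum_congr rfl fun a _ => ?_
    rw [map_smul, F.proj_e, if_pos rfl]
  have hv : ∀ v : Fin 2 → ℂ, ∑ a, v a • F.e σ a = 0 → v = 0 := by
    intro v h
    funext a
    have h2 := congrArg (F.co σ a) h
    rw [map_sum, map_zero, Finset.sum_eq_single a] at h2
    · rw [map_smul, F.co_e, if_pos ⟨rfl, rfl⟩, smul_eq_mul, mul_one] at h2
      exact h2
    · intro b _ hb
      rw [map_smul, F.co_e, if_neg (fun h => hb h.2.symm), smul_zero]
    · intro h; exact absurd (Finset.mem_univ _) h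
  constructor
  · intro h
    by_contra hcon
    obtain ⟨v, hv1, hv2⟩ := indefinite_at A F.ρ hρ hcon
    rw [F.proj_eq] at hv1 hv2
    refine h (fun a => F.co σ a v) (fun h0 => hv1 ?_) ?_
    · refine Finset.sum_eq_zero fun a _ => ?_
      have := congrFun h0 a
      simp only [Pi.zero_apply] at this
      rw [this, zero_smul]
    · rw [sq_gram]; exact hv2
  · intro h v hv0 h0
    rw [sq_gram, ← hpe] at h0
    have h1 := definite_at A F.ρ hρ h _ h0
    rw [hpe] at h1
    exact hv0 (hv v h1)

lemma eigen_iff (σ : K →+* ℂ) (v : A.H1) :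
    (∀ x, F.ρ x v = σ x • v) ↔ proj F.ρ σ v = v := by
  constructor
  · intro h
    have h1 : ∀ τ : K →+* ℂ, τ ≠ σ → proj F.ρ τ v = 0 := by
      intro τ hτ
      have h2 : ∃ x, τ x ≠ σ x := by
        by_contra hcon
        push Not at hcon
        exact hτ (RingHom.ext hcon)
      obtain ⟨x, hx⟩ := h2
      have h3 := F.proj_rho τ x v
      rw [h x, map_smul] at h3
      have h4 : (σ x - τ x) • proj F.ρ τ v = 0 := by rw [sub_smul, h3, sub_self]
      exact (smul_eq_zero.mp h4).resolve_left (sub_ne_zero.mpr (Ne.symm hx))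
    have h2 : v = ∑ τ, proj F.ρ τ v := by
      rw [← LinearMap.sum_apply, sum_proj]; rfl
    rw [Finset.sum_eq_single σ (fun τ _ hτ => h1 τ hτ)
      (fun h => absurd (Finset.mem_univ _) h)] at h2
    exact h2.symm
  · intro h x
    rw [← h, ← Module.End.mul_apply, rho_mul_proj, LinearMap.smul_apply]

lemma isDefAt_iff (ρ : K → A.H1 → A.H1) (hρ : ∀ x v, F.ρ x v = ρ x v) (σ : K →+* ℂ) :
    IsDefAt A F.ρ σ ↔ A.IsPureAt ρ σ := by
  have hpp : ∀ v, proj F.ρ σ (proj F.ρ σ v) = proj F.ρ σ v := by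
    classical
    intro v
    rw [← Module.End.mul_apply, proj_mul_proj, if_pos rfl]
  have hev : ∀ v, (∀ x, ρ x v = σ x • v) ↔ proj F.ρ σ v = v := by
    intro v
    rw [← eigen_iff]
    simp only [hρ]
  constructor
  · rintro (h | h)
    · left
      intro v hv
      rw [← (hev v).mp hv]
      exact h v
    · right
      intro v hv hf
      rw [← (hev v).mp hv] at hf ⊢
      exact h v hf
  · rintro (h | h)
    · left
      intro v
      exact h _ ((hev _).mpr (hpp v))
    · right
      intro v hf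
      exact h _ ((hev _).mpr (hpp v)) hf

end gram

/-- the action as ring homomorphism -/
noncomputable def unRho {A : AbVar} {K : Type} [Field K] [NumberField K] [IsCMField K]
    {ρ : K → A.H1 → A.H1} (C : A.IsUnitaryMult K ρ) : K →+* Module.End ℂ A.H1 where
  toFun x := IsLinearMap.mk' _ (C.endo x).linear
  map_one' := LinearMap.ext C.one
  map_mul' x y := LinearMap.ext (C.mul x y)
  map_add' x y := LinearMap.ext (C.add x y)
  map_zero' := LinearMap.ext fun v => by
    have h := C.add 0 0 v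
    rw [add_zero] at h
    have h2 : ρ 0 v = 0 := by
      have h3 := congrArg (fun w => w - ρ 0 v) h
      simp only [sub_self, add_sub_cancel_right] at h3
      exact h3.symm
    exact h2

theorem nonempty_UFu (A : AbVar) (K : Type) [Field K] [NumberField K] [IsCMField K]
    (ρ : K → A.H1 → A.H1) (C : A.IsUnitaryMult K ρ) :
    ∃ F : UF (pData A) K 2, ∀ x v, F.ρ x v = ρ x v := by
  have hQ : ∀ x, ∀ v ∈ (pData A).Q, unRho C x v ∈ (pData A).Q :=
    fun x v hv => (isDRB_of_isEnd A _ (C.endo x)).rat v hv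
  obtain ⟨lam, h1, h2, eb, h3⟩ := exists_Kbasis (pData A) (unRho C) hQ 2
    (by rw [C.degree, card_index, mul_comm])
  exact ⟨{  ρ := unRho C
            hρ := fun x => isDRB_of_isEnd A _ (C.endo x)
            cc := cmConj K
            hcc := fun σ x => IsCMField.complexEmbedding_complexConj K σ x
            hros := fun x u v => C.rosati x u v
            hcen := fun f hf _ => C.full f (isEnd_of_isDRB A f hf)
            hnd := hnd_pData A
            lam := lam
            lam_rat := h1
            gen := h2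
            eb := eb
            heb := h3 }, fun x v => rfl⟩

theorem nonempty_UFr (A : AbVar) (K : Type) [Field K] [NumberField K] [IsTotallyReal K]
    (C : RM A K) : Nonempty (UF (pData A) K 2) := by
  have hQ : ∀ x, ∀ v ∈ (pData A).Q, rmRho C x v ∈ (pData A).Q :=
    fun x v hv => (isDRB_of_isEnd A _ (C.endo x)).rat v hv
  obtain ⟨lam, h1, h2, eb, h3⟩ := exists_Kbasis (pData A) (rmRho C) hQ 2
    (by rw [C.degree, card_index, mul_comm])
  exact ⟨{  ρ := rmRho C
            hρ := fun x => isDRB_of_isEnd A _ (C.endo x)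
            cc := fun x => x
            hcc := fun σ x => by
              have h := ComplexEmbedding.isReal_iff.mp
                (IsTotallyReal.complexEmbedding_isReal σ)
              have h2 := congrArg (fun τ => τ x) h
              simp only [ComplexEmbedding.conjugate_coe_eq] at h2
              exact h2.symm
            hros := fun x u v => C.rosati x u v
            hcen := fun f hf hc => C.centralizer f (isEnd_of_isDRB A f hf) hc
            hnd := hnd_pData A
            lam := lam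
            lam_rat := h1
            gen := h2
            eb := eb
            heb := h3 }⟩

variable {I : Type} [Fintype I] (A : I → AbVar) (n : I → ℕ) (K : I → Type)
  [∀ i, Field (K i)] [∀ i, NumberField (K i)]

theorem main_U (hT : ∀ i, NotProportional (A i)) (ρ : ∀ i, K i → (A i).H1 → (A i).H1)
    (S W T : Finset I) (hI : ∀ i, i ∈ S ∨ i ∈ W ∨ i ∈ T) (hS : ∀ i ∈ S, IsRMType (A i) (K i))
    (hW : ∀ i ∈ W, IsUnitaryType (A i) (K i) (ρ i)) (hC : ∀ i ∈ T, IsCMType (A i) (K i))
    (h : OddMultiplicityFree K) (hsep : SignSeparated A K ρ S W)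
    (k : ℕ) (α : Form A n (2 * k)) : IsGrothendieck A n k α ↔ IsDivisorial A n k α := by
  classical
  refine ⟨?_, isGrothendieck_of_isDivisorial A n k α⟩
  rintro ⟨hα1, hα2⟩
  -- the factors
  have hreal : ∀ i ∈ S, ∀ σ : K i →+* ℂ, ComplexEmbedding.conjugate σ = σ := by
    intro i hi σ
    have := (hS i hi).1
    exact ComplexEmbedding.isReal_iff.mp (IsTotallyReal.complexEmbedding_isReal σ)
  have hF : ∀ i, ∃ F : FT (pData (A i)) (K i), (F.isLeft → i ∈ W ∨ i ∈ S) ∧
      (i ∈ W → (∀ σ, Aniso (F.gram σ) ↔ (A i).IsPureAt (ρ i) σ) ∧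
        ∀ f, IsDRB (pData (A i)) (pData (A i)) f → ∃ x, ∀ v, f v = F.ρ x v) ∧
      (F.isLeft → i ∉ W → ∀ σ, ¬ Aniso (F.gram σ)) := by
    intro i
    by_cases hiW : i ∈ W
    · obtain ⟨h1, C⟩ := hW i hiW
      obtain ⟨F, hF⟩ := nonempty_UFu (A i) (K i) (ρ i) C
      refine ⟨.inl F, fun _ => Or.inl hiW, fun _ => ⟨fun σ => ?_, fun f hf => ?_⟩,
        fun _ h => absurd hiW h⟩
      · rw [aniso_gram, isDefAt_iff F (ρ i) hF]
      · obtain ⟨x, hx⟩ := C.full f (isEnd_of_isDRB (A i) f hf)
        exact ⟨x, fun v => by rw [hx v, ← hF]; rfl⟩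
    · by_cases hiS : i ∈ S
      · have h1 := hreal i hiS
        obtain ⟨h2, ⟨C⟩⟩ := hS i hiS
        obtain ⟨F⟩ := nonempty_UFr (A i) (K i) C
        refine ⟨.inl F, fun _ => Or.inr hiS, fun h => absurd h hiW, fun _ _ σ => ?_⟩
        rw [aniso_gram]
        refine not_def_of_real (A i) F.ρ (fun x => isEnd_of_isDRB (A i) _ (F.hρ x)) (h1 σ)
          ⟨F.e σ 0, ?_⟩
        rw [F.proj_e, if_pos rfl]
        intro h0
        have h3 := F.co_e σ 0 σ 0
        rw [h0, map_zero, if_pos ⟨rfl, rfl⟩] at h3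
        exact zero_ne_one h3
      · obtain ⟨h1, ⟨C⟩⟩ := hC i (by
          rcases hI i with h | h | h
          · exact absurd h hiS
          · exact absurd h hiW
          · exact h)
        exact ⟨.inr ⟨cmFac (A i) (K i) C (hT i), fun h => h⟩, fun h => by simp at h,
          fun h => absurd h hiW, fun h => by simp at h⟩
  choose F hFl hFW hFS using hF
  have hnr : ∀ i, (F i).isLeft → ∀ σ : K i →+* ℂ, ComplexEmbedding.conjugate σ ≠ σ → i ∈ W := by
    intro i hi σ hσ
    rcases hFl i hi with h1 | h1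
    · exact h1
    · exact absurd (hreal i h1 σ) hσ
  have hB : ∀ v : Fin (2 * k) → HW (fun i => Fin (A i).g ⊕ Fin (A i).g) n,
      (∀ r, IsRatP n (fun i => pData (A i)) (v r)) →
      ∃ q : ℚ, (α : MultilinearMap ℂ
        (fun _ : Fin (2 * k) => HW (fun i => Fin (A i).g ⊕ Fin (A i).g) n) ℂ) v =
          (2 * Real.pi * Complex.I) ^ k * q := by
    intro v hv
    apply hα2
    intro r i m
    exact (mem_pData_Q _ _).mp (hv r i m)
  have hA : ∀ v : Fin (2 * k) → HW (fun i => Fin (A i).g ⊕ Fin (A i).g) n,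
      (∀ r i m j, IsAlgebraic ℚ (v r i m j)) → IsAlgebraic ℚ ((α : MultilinearMap ℂ
        (fun _ : Fin (2 * k) => HW (fun i => Fin (A i).g ⊕ Fin (A i).g) n) ℂ) v) := hα1
  have hϖ := Complex.two_pi_I_ne_zero
  have hun : UnLinked n (fun i => pData (A i)) F (α : MultilinearMap ℂ
        (fun _ : Fin (2 * k) => HW (fun i => Fin (A i).g ⊕ Fin (A i).g) n) ℂ) := by
    refine unlinked_of_sign n _ F _ hϖ hB hA (fun i σ j τ hi hj hσ h1 h2 => ?_)
    have hiW := hnr i hi σ hσ
    by_cases hjW : j ∈ W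
    · obtain ⟨g, hg⟩ := hsep.sep i hiW j hjW σ τ h1 h2
      refine ⟨g, fun hc => hg ?_⟩
      rw [(hFW i hiW).1, (hFW j hjW).1] at hc
      exact hc
    · have hjS : j ∈ S := (hFl j hj).resolve_left hjW
      obtain ⟨σ', hσ'⟩ := hsep.pure ⟨j, hjS⟩ i hiW
      obtain ⟨g, hg⟩ := Helper84.exists_aut σ σ'
      refine ⟨g, fun hc => hFS j hj hjW _ (hc.mp ?_)⟩
      rw [(hFW i hiW).1, hg]
      exact hσ'
  have h1 := abstract_of_span n (fun i => pData (A i)) hϖ α hB hα1
    (family_fftU n (fun i => pData (A i)) F _ hϖ hB hA (mf_of_oddMultiplicityFree K h)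
      (fun i hi hσ f hf => by
        obtain ⟨σ, hσ⟩ := hσ
        exact (hFW i (hnr i hi σ hσ)).2 f hf) hun)
  exact isDivisorial_of_span A n k α h1

end Pool.Agent.Helper7
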