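import Pool.Agent.Helper7.U.FramesC
import Pool.Agent.Helper7.PreFrames

/-!
Adapting the coordinates to the conjugacy classes of the normalised representations.
-/

namespace Pool.Agent.Helper7

open Matrix

section nrm

variable {G : Type*} [AddCommGroup G] [Module ℂ G] (c : G →ₗ[ℂ] ℂ)
  (A : G →ₗ[ℂ] Matrix (Fin 2) (Fin 2) ℂ)

/-- the character of a representation, normalised -/
noncomputable def lamOf : G →ₗ[ℂ] ℂ := (1 / 2 : ℂ) • ((Matrix.traceLinearMap (Fin 2) ℂ ℂ) ∘ₗ A - c)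

lemma lamOf_apply (X : G) : lamOf c A X = ((A X).trace - c X) / 2 := by
  show (1 / 2 : ℂ) * ((A X).trace - c X) = _
  ring

/-- the normalised representation -/
noncomputable def nrm : G →ₗ[ℂ] Matrix (Fin 2) (Fin 2) ℂ :=
  A - (lamOf c A).smulRight (1 : Matrix (Fin 2) (Fin 2) ℂ)

lemma nrm_apply (X : G) : nrm c A X = A X - lamOf c A X • (1 : Matrix (Fin 2) (Fin 2) ℂ) := rfl

lemma nrm_trace (X : G) : (nrm c A X).trace = c X := by
  rw [nrm_apply, trace_sub, trace_smul, trace_one, Fintype.card_fin, lamOf_apply, smul_eq_mul]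
  push_cast; ring

variable {c A} (br : G → G → G) (hc : ∀ X Y, c (br X Y) = 0)
  (hbr : ∀ X Y, A (br X Y) = A X * A Y - A Y * A X)

include hc hbr in
lemma lamOf_br (X Y : G) : lamOf c A (br X Y) = 0 := by
  rw [lamOf_apply, hbr, trace_sub, trace_mul_comm, sub_self, hc, sub_zero, zero_div]

include hc hbr in
lemma nrm_br (X Y : G) :
    nrm c A (br X Y) = nrm c A X * nrm c A Y - nrm c A Y * nrm c A X := by
  rw [nrm_apply, lamOf_br br hc hbr, zero_smul, sub_zero, hbr, nrm_apply, nrm_apply]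
  simp only [sub_mul, mul_sub, smul_mul_assoc, mul_smul_comm, one_mul, mul_one]
  module

include hc hbr in
lemma surj0 (hsurj : ∀ Z : Matrix (Fin 2) (Fin 2) ℂ, Z.trace = 0 → ∃ X, A X = Z)
    (Z : Matrix (Fin 2) (Fin 2) ℂ) (hZ : Z.trace = 0) : ∃ X, c X = 0 ∧ A X = Z := by
  obtain ⟨E, hE⟩ := hsurj mE tr_mE
  obtain ⟨F, hF⟩ := hsurj mF tr_mF
  obtain ⟨H, hH⟩ := hsurj mH tr_mH
  refine ⟨(Z 0 1 / 2) • br H E + (-(Z 1 0) / 2) • br H F + Z 0 0 • br E F, ?_, ?_⟩
  · rw [map_add, map_add, map_smul, map_smul, map_smul, hc, hc, hc]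
    simp
  · rw [map_add, map_add, map_smul, map_smul, map_smul, hbr, hbr, hbr, hE, hF, hH, brEF, brHE,
      brHF]
    rw [trace_fin_two] at hZ
    have h11 : Z 1 1 = - Z 0 0 := by linear_combination hZ
    ext a b
    fin_cases a <;> fin_cases b <;>
      simp [mE00, mE01, mE10, mE11, mF00, mF01, mF10, mF11, mH00, mH01, mH10, mH11, h11]

end nrm

/-- A Lie algebra acting through representations of dimension at most two. -/
structure PreFramesC (W : Type) [AddCommGroup W] [Module ℂ W] (Qs T G : Type) [Fintype Qs]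
    [DecidableEq Qs] [AddCommGroup G] [Module ℂ G] where
  pl : Qs → T
  gl : T → Prop
  cj : T → T
  cj_cj : ∀ t, cj (cj t) = t
  cj_ne : ∀ t, ¬ gl t → cj t ≠ t
  gl_cj : ∀ t, gl (cj t) ↔ gl t
  e : Qs → Fin 2 → W
  co : Qs → Fin 2 → (W →ₗ[ℂ] ℂ)
  L : G → Module.End ℂ W
  c : G →ₗ[ℂ] ℂ
  A : T → G →ₗ[ℂ] Matrix (Fin 2) (Fin 2) ℂ
  br : G → G → G
  hsum : ∀ v, v = ∑ q, ∑ j, co q j v • e q j
  co_e : ∀ q j q' j', (gl (pl q) ∨ j = 0) → co q j (e q' j') = if q = q' ∧ j = j' then 1 else 0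
  e_one : ∀ q, ¬ gl (pl q) → e q 1 = 0
  act : ∀ X q j, L X (e q j) = ∑ j', A (pl q) X j' j • e q j'
  co_act : ∀ X q j v, (gl (pl q) ∨ j = 0) → co q j (L X v) = ∑ j', A (pl q) X j j' * co q j' v
  trcj : ∀ t X, gl t → (A t X).trace + (A (cj t) X).trace = 2 * c X
  cm : ∀ t X, ¬ gl t → A t X 0 1 = 0 ∧ A t X 0 0 + A (cj t) X 0 0 = c X
  c_br : ∀ X Y, c (br X Y) = 0
  hbr : ∀ t, gl t → ∀ X Y, A t (br X Y) = A t X * A t Y - A t Y * A t X
  hlam : ∀ t, ¬ gl t → ∀ X Y, A t (br X Y) 0 0 = 0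
  hsurj : ∀ t, gl t → ∀ Z : Matrix (Fin 2) (Fin 2) ℂ, Z.trace = 0 → ∃ X, A t X = Z
  hun : ∀ t t', gl t → cj t ≠ t → gl t' → ∀ Q : Matrix (Fin 2) (Fin 2) ℂ, Q.det ≠ 0 →
    (∀ X, nrm c (A t) X * Q = Q * nrm c (A t') X) → t' = t ∨ t' = cj t
  hcj : ∀ t, gl t → ∃ Q : Matrix (Fin 2) (Fin 2) ℂ, Q.det ≠ 0 ∧
    ∀ X, nrm c (A (cj t)) X * Q = Q * nrm c (A t) X

namespace PreFramesC

variable {W : Type} [AddCommGroup W] [Module ℂ W] {Qs T G : Type} [Fintype Qs]
    [DecidableEq Qs] [AddCommGroup G] [Module ℂ G] (S : PreFramesC W Qs T G)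

/-- the places of the first kind -/
abbrev TG : Type := {t : T // S.gl t}

/-- the representations of dimension two -/
noncomputable def AG (t : S.TG) : G →ₗ[ℂ] Matrix (Fin 2) (Fin 2) ℂ := nrm S.c (S.A t.1)

/-- the characters -/
noncomputable def lamG (t : {t : T // ¬ S.gl t} ⊕ S.TG) : G →ₗ[ℂ] ℂ :=
  match t with
  | .inl t => (Matrix.entryLinearMap ℂ ℂ (0 : Fin 2) (0 : Fin 2)) ∘ₗ S.A t.1
  | .inr t => lamOf S.c (S.A t.1)

lemma lamG_inl (t : {t : T // ¬ S.gl t}) (X : G) : S.lamG (.inl t) X = S.A t.1 X 0 0 := rfl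

lemma lamG_inr (t : S.TG) (X : G) : S.lamG (.inr t) X = lamOf S.c (S.A t.1) X := rfl

lemma AG_apply (t : S.TG) (X : G) : S.AG t X = nrm S.c (S.A t.1) X := rfl

lemma A_eq (t : T) (X : G) : S.A t X = nrm S.c (S.A t) X +
    lamOf S.c (S.A t) X • (1 : Matrix (Fin 2) (Fin 2) ℂ) := by
  rw [nrm_apply, sub_add_cancel]

lemma AG_br (t : S.TG) (X Y : G) :
    S.AG t (S.br X Y) = S.AG t X * S.AG t Y - S.AG t Y * S.AG t X :=
  nrm_br S.br S.c_br (S.hbr t.1 t.2) X Y

lemma AG_tr (t : S.TG) (X : G) : (S.AG t X).trace = S.c X := nrm_trace _ _ X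

lemma AG_surj (t : S.TG) (Z : Matrix (Fin 2) (Fin 2) ℂ) (hZ : Z.trace = 0) :
    ∃ X, S.AG t X = Z := by
  obtain ⟨X, h1, h2⟩ := surj0 S.br S.c_br (S.hbr t.1 t.2) (S.hsurj t.1 t.2) Z hZ
  refine ⟨X, ?_⟩
  rw [AG_apply, nrm_apply, lamOf_apply, h1, h2, hZ]
  simp

lemma lamG_br (s : {t : T // ¬ S.gl t} ⊕ S.TG) (X Y : G) : S.lamG s (S.br X Y) = 0 := by
  cases s with
  | inl s => exact S.hlam s.1 s.2 X Y
  | inr s => exact lamOf_br S.br S.c_br (S.hbr s.1 s.2) X Y

/-- classes -/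
abbrev CG : Type := Quotient (conjSetoid S.AG)

/-- representatives -/
noncomputable def rp (t : S.TG) : S.TG := (Quotient.mk (conjSetoid S.AG) t).out

lemma rp_conj (t : S.TG) : ConjRep S.AG (S.rp t) t := by
  have h : (conjSetoid S.AG).r (Quotient.mk (conjSetoid S.AG) t).out t :=
    Quotient.exact (Quotient.out_eq _)
  exact h

/-- the conjugating matrices -/
noncomputable def cQ (t : S.TG) : Matrix (Fin 2) (Fin 2) ℂ := (S.rp_conj t).choose

lemma cQ_det (t : S.TG) : (S.cQ t).det ≠ 0 := (S.rp_conj t).choose_spec.1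

lemma cQ_spec (t : S.TG) (X : G) : S.AG (S.rp t) X * S.cQ t = S.cQ t * S.AG t X :=
  (S.rp_conj t).choose_spec.2 X

open Classical in
/-- the conjugating matrices, extended -/
noncomputable def Qm (t : T) : Matrix (Fin 2) (Fin 2) ℂ := if h : S.gl t then S.cQ ⟨t, h⟩ else 1

open Classical in
/-- the matrices in adapted coordinates -/
noncomputable def A' (t : T) (X : G) : Matrix (Fin 2) (Fin 2) ℂ :=
  if h : S.gl t then S.AG (S.rp ⟨t, h⟩) X + lamOf S.c (S.A t) X • 1 else S.A t X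

open Classical in
/-- the class of a place -/
noncomputable def cls (t : T) : Option S.CG :=
  if h : S.gl t then some (Quotient.mk (conjSetoid S.AG) ⟨t, h⟩) else none

lemma Qm_det (t : T) : IsUnit (S.Qm t).det := by
  rw [isUnit_iff_ne_zero, Qm]
  split_ifs with h
  · exact S.cQ_det _
  · simp

lemma Qm_inv_mul (t : T) : (S.Qm t)⁻¹ * S.Qm t = 1 := Matrix.nonsing_inv_mul _ (S.Qm_det t)

lemma Qm_mul_inv (t : T) : S.Qm t * (S.Qm t)⁻¹ = 1 := Matrix.mul_nonsing_inv _ (S.Qm_det t)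

lemma Qm_neg (t : T) (h : ¬ S.gl t) : S.Qm t = 1 := by rw [Qm, dif_neg h]

lemma A'_neg (t : T) (h : ¬ S.gl t) (X : G) : S.A' t X = S.A t X := by rw [A', dif_neg h]

lemma A'_pos (t : T) (h : S.gl t) (X : G) :
    S.A' t X = S.AG (S.rp ⟨t, h⟩) X + lamOf S.c (S.A t) X • 1 := by
  rw [A', dif_pos h]

lemma Qm_spec (t : T) (X : G) : S.A' t X * S.Qm t = S.Qm t * S.A t X := by
  rw [A', Qm]
  split_ifs with h
  · rw [add_mul, S.cQ_spec ⟨t, h⟩ X, S.A_eq t X, mul_add, smul_mul_assoc, mul_smul_comm, one_mul,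
      mul_one]
    rfl
  · rw [mul_one, one_mul]

lemma Qm_spec' (t : T) (X : G) : S.A t X * (S.Qm t)⁻¹ = (S.Qm t)⁻¹ * S.A' t X := by
  have h1 : S.A t X = (S.Qm t)⁻¹ * S.A' t X * S.Qm t := by
    rw [mul_assoc, Qm_spec, ← mul_assoc, Qm_inv_mul, one_mul]
  rw [h1, mul_assoc, Qm_mul_inv, mul_one]

/-- adapted vectors -/
noncomputable def e' (q : Qs) (j : Fin 2) : W := ∑ a, (S.Qm (S.pl q))⁻¹ a j • S.e q a

/-- adapted coordinates -/
noncomputable def co' (q : Qs) (j : Fin 2) : W →ₗ[ℂ] ℂ := ∑ a, S.Qm (S.pl q) j a • S.co q a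

lemma co'_apply (q : Qs) (j : Fin 2) (v : W) :
    S.co' q j v = ∑ a, S.Qm (S.pl q) j a * S.co q a v := by
  rw [co', LinearMap.sum_apply]
  rfl

lemma hsum' (v : W) : v = ∑ q, ∑ j, S.co' q j v • S.e' q j := by
  conv_lhs => rw [S.hsum v]
  refine Finset.sum_congr rfl fun q _ => ?_
  have h1 : ∀ a b, ∑ j, (S.Qm (S.pl q))⁻¹ b j * S.Qm (S.pl q) j a = if b = a then 1 else 0 := by
    intro a b
    rw [← Matrix.mul_apply, Qm_inv_mul, Matrix.one_apply]
  have h2 : ∑ j, S.co' q j v • S.e' q j = ∑ b, ∑ a,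
      (∑ j, (S.Qm (S.pl q))⁻¹ b j * S.Qm (S.pl q) j a) • (S.co q a v • S.e q b) := by
    simp only [co'_apply, e', Fin.sum_univ_two]
    module
  rw [h2]
  simp only [h1, ite_smul, one_smul, zero_smul, Finset.sum_ite_eq, Finset.mem_univ, if_true]

lemma co_e' (q : Qs) (j : Fin 2) (q' : Qs) (j' : Fin 2) (h : S.gl (S.pl q) ∨ j = 0) :
    S.co' q j (S.e' q' j') = if q = q' ∧ j = j' then 1 else 0 := by
  have hfin : ∀ j : Fin 2, j = 0 ∨ j = 1 := by
    intro j; fin_cases j <;> simp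
  -- evaluation on the original vectors
  have h1 : ∀ b, S.co' q j (S.e q' b) = if q = q' then S.Qm (S.pl q) j b else 0 := by
    intro b
    rw [co'_apply]
    by_cases hgl : S.gl (S.pl q)
    · have h2 : ∀ a, S.co q a (S.e q' b) = if q = q' ∧ a = b then 1 else 0 :=
        fun a => S.co_e _ _ _ _ (Or.inl hgl)
      simp only [h2]
      by_cases hq : q = q'
      · simp [hq]
      · simp [hq]
    · have hj : j = 0 := h.resolve_left hgl
      subst hj
      rw [Fin.sum_univ_two, S.Qm_neg _ hgl, S.co_e _ _ _ _ (Or.inr rfl)]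
      by_cases hq : q = q'
      · rcases hfin b with hb | hb <;> subst hb <;> simp [hq]
      · simp [hq]
  rw [e', map_sum]
  simp only [map_smul, smul_eq_mul, h1]
  by_cases hq : q = q'
  · subst hq
    simp only [if_true, true_and]
    have h2 : ∑ a, (S.Qm (S.pl q))⁻¹ a j' * S.Qm (S.pl q) j a =
        (S.Qm (S.pl q) * (S.Qm (S.pl q))⁻¹) j j' := by
      rw [Matrix.mul_apply]
      exact Finset.sum_congr rfl fun a _ => mul_comm _ _
    rw [h2, Qm_mul_inv, Matrix.one_apply]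
  · simp [hq]

lemma act' (X : G) (q : Qs) (j : Fin 2) :
    S.L X (S.e' q j) = ∑ j', S.A' (S.pl q) X j' j • S.e' q j' := by
  have h1 : S.L X (S.e' q j) = ∑ b, (S.A (S.pl q) X * (S.Qm (S.pl q))⁻¹) b j • S.e q b := by
    rw [e', map_sum]
    simp only [map_smul, S.act, Finset.smul_sum, smul_smul, Matrix.mul_apply, Finset.sum_smul]
    rw [Finset.sum_comm]
    refine Finset.sum_congr rfl fun b _ => Finset.sum_congr rfl fun a _ => ?_
    congr 1; ring
  rw [h1, Qm_spec']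
  simp only [e', Finset.smul_sum, smul_smul, Matrix.mul_apply, Finset.sum_smul]
  rw [Finset.sum_comm]
  refine Finset.sum_congr rfl fun b _ => Finset.sum_congr rfl fun a _ => ?_
  congr 1; ring

lemma co_act' (X : G) (q : Qs) (j : Fin 2) (v : W) (h : S.gl (S.pl q) ∨ j = 0) :
    S.co' q j (S.L X v) = ∑ j', S.A' (S.pl q) X j j' * S.co' q j' v := by
  have h1 : S.co' q j (S.L X v) = ∑ a, (S.Qm (S.pl q) * S.A (S.pl q) X) j a * S.co q a v := by
    rw [co'_apply]
    by_cases hgl : S.gl (S.pl q)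
    · have h2 : ∀ a, S.co q a (S.L X v) = ∑ j', S.A (S.pl q) X a j' * S.co q j' v :=
        fun a => S.co_act _ _ _ _ (Or.inl hgl)
      simp only [h2, Finset.mul_sum, Matrix.mul_apply, Finset.sum_mul]
      rw [Finset.sum_comm]
      refine Finset.sum_congr rfl fun b _ => Finset.sum_congr rfl fun a _ => by ring
    · have hj : j = 0 := h.resolve_left hgl
      subst hj
      rw [S.Qm_neg _ hgl, one_mul, Fin.sum_univ_two, S.co_act _ _ _ _ (Or.inr rfl)]
      simp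
  rw [h1, ← Qm_spec]
  simp only [co'_apply, Finset.mul_sum, Matrix.mul_apply, Finset.sum_mul]
  rw [Finset.sum_comm]
  refine Finset.sum_congr rfl fun b _ => Finset.sum_congr rfl fun a _ => by ring

lemma central_aux [Fintype T] (X : G) (s : Finset S.TG) : ∃ X', S.c X' = S.c X ∧
    (∀ t ∈ s, S.AG t X' = (S.c X / 2) • 1) ∧ ∀ t, S.lamG t X' = S.lamG t X := by
  classical
  induction s using Finset.induction_on with
  | empty => exact ⟨X, rfl, fun t ht => absurd ht (Finset.notMem_empty t), fun _ => rfl⟩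
  | insert t s ht ih =>
    obtain ⟨X', h1, h2, h3⟩ := ih
    obtain ⟨Y, hY1, hY2, hY3⟩ := goursat S.br S.AG S.c S.lamG S.AG_br S.AG_tr S.AG_surj
      S.lamG_br t (S.AG t X' - (S.c X / 2) • 1) (by
        rw [trace_sub, AG_tr, trace_smul, trace_one, Fintype.card_fin, h1, smul_eq_mul]
        push_cast; ring)
    have hcY : S.c Y = 0 := by
      rw [← S.AG_tr t, hY1, trace_sub, AG_tr, trace_smul, trace_one, Fintype.card_fin, h1,
        smul_eq_mul]
      push_cast; ring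
    have hkey : ∀ t', ConjRep S.AG t t' → S.AG t' (X' - Y) = (S.c X / 2) • 1 := by
      rintro t' ⟨Q, hQ, h⟩
      have h4 := h (X' - Y)
      rw [map_sub, hY1, sub_sub_cancel, smul_mul_assoc, one_mul] at h4
      have hu : IsUnit Q.det := isUnit_iff_ne_zero.mpr hQ
      have h5 : S.AG t' (X' - Y) = Q⁻¹ * (Q * S.AG t' (X' - Y)) := by
        rw [← mul_assoc, Matrix.nonsing_inv_mul _ hu, one_mul]
      rw [h5, ← h4, mul_smul_comm, Matrix.nonsing_inv_mul _ hu]
    refine ⟨X' - Y, by rw [map_sub, hcY, h1, sub_zero], fun t' ht' => ?_, fun t' => ?_⟩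
    · by_cases hc : ConjRep S.AG t t'
      · exact hkey t' hc
      · rcases Finset.mem_insert.mp ht' with h | h
        · subst h
          exact absurd (ConjRep.refl _ _) hc
        · rw [map_sub, hY2 t' hc, sub_zero]
          exact h2 t' h
    · rw [map_sub, hY3, sub_zero, h3 t']

lemma lam_real (t : T) (X : G) (h : S.gl t) :
    lamOf S.c (S.A t) X + lamOf S.c (S.A (S.cj t)) X = 0 := by
  have h1 := S.trcj t X h
  rw [lamOf_apply, lamOf_apply]
  linear_combination h1 / 2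

/-- the adapted frames -/
noncomputable def toFrames [Fintype T] [DecidableEq T] : FramesC W Qs T (Option S.CG) G where
  pl := S.pl
  gl := S.gl
  cls := S.cls
  cj := S.cj
  cj_cj := S.cj_cj
  cj_ne := S.cj_ne
  gl_cj := S.gl_cj
  cls_un t t' h hne hc := by
    rw [cls, cls, dif_pos h] at hc
    by_cases h' : S.gl t'
    · rw [dif_pos h', Option.some.injEq] at hc
      obtain ⟨Q, hQ, hQ2⟩ : ConjRep S.AG ⟨t, h⟩ ⟨t', h'⟩ := Quotient.exact hc
      exact S.hun t t' h hne h' Q hQ hQ2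
    · rw [dif_neg h'] at hc
      exact absurd hc (by simp)
  cls_cj t h := by
    rw [cls, cls, dif_pos h, dif_pos ((S.gl_cj t).mpr h), Option.some.injEq]
    apply Quotient.sound (s := conjSetoid S.AG)
    exact S.hcj t h
  e := S.e'
  co := S.co'
  L := S.L
  c := S.c
  A := S.A'
  lam t X := lamOf S.c (S.A t) X
  hsum := S.hsum'
  co_e := S.co_e'
  e_one q h := by
    rw [e', Fin.sum_univ_two, S.Qm_neg _ h, S.e_one q h]
    simp
  act := S.act'
  co_act := S.co_act'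
  tr t X h := by
    rw [S.A'_pos t h, trace_add, AG_tr, trace_smul, trace_one, Fintype.card_fin, smul_eq_mul]
    push_cast; ring
  lam_cj t X h := S.lam_real t X h
  cm t X h := by
    rw [S.A'_neg t h, S.A'_neg (S.cj t) (fun h' => h ((S.gl_cj t).mp h'))]
    exact S.cm t X h
  same t t' X h h' hc := by
    rw [cls, cls, dif_pos h, dif_pos h', Option.some.injEq] at hc
    rw [S.A'_pos t h, S.A'_pos t' h', rp, rp, hc, add_sub_cancel_right, add_sub_cancel_right]
  sl := by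
    classical
    intro t Z h hZ
    obtain ⟨X, h1, h2, h3⟩ := goursat S.br S.AG S.c S.lamG S.AG_br S.AG_tr S.AG_surj
      S.lamG_br (S.rp ⟨t, h⟩) Z hZ
    have hl : ∀ t', S.gl t' → lamOf S.c (S.A t') X = 0 := fun t' ht' => h3 (.inr ⟨t', ht'⟩)
    refine ⟨X, by rw [← S.AG_tr (S.rp ⟨t, h⟩), h1, hZ], ?_, hl, fun t' ht' hc => ?_,
      fun t' ht' => ?_⟩
    · rw [S.A'_pos t h, h1, hl t h, zero_smul, add_zero]
    · rw [S.A'_pos t' ht', hl t' ht', zero_smul, add_zero]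
      refine h2 (S.rp ⟨t', ht'⟩) fun hcon => hc ?_
      rw [cls, cls, dif_pos h, dif_pos ht', Option.some.injEq]
      apply Quotient.sound (s := conjSetoid S.AG)
      exact ConjRep.trans _ (ConjRep.symm _ (S.rp_conj ⟨t', ht'⟩))
        (ConjRep.trans _ (ConjRep.symm _ hcon) (S.rp_conj ⟨t, h⟩))
    · rw [S.A'_neg t' ht']
      exact h3 (.inl ⟨t', ht'⟩)
  central := by
    classical
    intro X
    obtain ⟨X', h1, h2, h3⟩ := S.central_aux X Finset.univ
    refine ⟨X', h1, fun t ht => ?_, fun t ht => ?_⟩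
    · have h4 : lamOf S.c (S.A t) X' = lamOf S.c (S.A t) X := h3 (.inr ⟨t, ht⟩)
      rw [S.A'_pos t ht, h2 _ (Finset.mem_univ _), h4, add_smul]
    · rw [S.A'_neg t ht, S.A'_neg t ht]; exact h3 (.inl ⟨t, ht⟩)

end PreFramesC

end Pool.Agent.Helper7
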