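import Pool.Agent.Helper7.U.UIrred
import Pool.Agent.Helper7.U.PreFramesC
import Pool.Agent.Helper7.Family3

/-!
Factors of rank two over a field of endomorphisms, and factors of CM type.
-/

namespace Pool.Agent.Helper7

open Module NumberField Matrix

/-- a factor of rank two over a field, or of CM type -/
abbrev FT {κ : Type} [Fintype κ] [DecidableEq κ] {ϖ : ℂ} (P : PData κ ϖ) (K : Type) [Field K]
    [NumberField K] : Type := UF P K 2 ⊕ {F : Fac P K // ¬ F.gl}

namespace UF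

variable {κ : Type} [Fintype κ] [DecidableEq κ] {ϖ : ℂ} {P : PData κ ϖ} {K : Type} [Field K]
    [NumberField K] {r : ℕ} (F : UF P K r)

variable {F} in
lemma Comm.co_act {X : Module.End ℂ (κ → ℂ)} (hX : F.Comm X) (σ : K →+* ℂ) (j : Fin r)
    (v : κ → ℂ) : F.co σ j (X v) = ∑ a, F.co σ j (X (F.e σ a)) * F.co σ a v := by
  classical
  have h1 : F.co σ j (X v) = F.co σ j (X (Helper7.proj F.ρ σ v)) := by
    have h2 : X v = ∑ τ, Helper7.proj F.ρ τ (X v) := by
      rw [← LinearMap.sum_apply, sum_proj]; rfl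
    rw [h2, map_sum, Finset.sum_eq_single σ]
    · rw [hX.proj]
    · intro τ _ hτ
      rw [F.proj_eq, map_sum]
      refine Finset.sum_eq_zero fun a _ => ?_
      rw [map_smul, F.co_e, if_neg (fun h => hτ h.1.symm), smul_zero]
    · intro h; exact absurd (Finset.mem_univ _) h
  rw [h1, F.proj_eq, map_sum, map_sum]
  refine Finset.sum_congr rfl fun a _ => ?_
  rw [map_smul, map_smul, smul_eq_mul, mul_comm]

end UF

namespace FT

variable {κ : Type} [Fintype κ] [DecidableEq κ] {ϖ : ℂ} {P : PData κ ϖ} {K : Type} [Field K]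
    [NumberField K]

/-- the action of the field -/
def ρ : FT P K → (K →+* Module.End ℂ (κ → ℂ))
  | .inl F => F.ρ
  | .inr F => F.1.ρ

/-- complex conjugation -/
def cc : FT P K → (K → K)
  | .inl F => F.cc
  | .inr F => F.1.cc

/-- adapted vectors -/
noncomputable def e : FT P K → (K →+* ℂ) → Fin 2 → κ → ℂ
  | .inl F => F.e
  | .inr F => F.1.e

/-- adapted coordinates -/
noncomputable def co : FT P K → (K →+* ℂ) → Fin 2 → ((κ → ℂ) →ₗ[ℂ] ℂ)
  | .inl F => F.co
  | .inr F => F.1.lf.co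

/-- adapted rational vectors -/
def lam : FT P K → Fin 2 → κ → ℂ
  | .inl F => F.lam
  | .inr F => F.1.lf.lam

lemma hρ (F : FT P K) (x : K) : IsDRB P P (F.ρ x) := by
  cases F with
  | inl F => exact F.hρ x
  | inr F => exact F.1.hρ x

lemma hcc (F : FT P K) (σ : K →+* ℂ) (x : K) : σ (F.cc x) = starRingEnd ℂ (σ x) := by
  cases F with
  | inl F => exact F.hcc σ x
  | inr F => exact F.1.hcc σ x

lemma hros (F : FT P K) (x : K) (u v : κ → ℂ) : P.ψ (F.ρ x u) v = P.ψ u (F.ρ (F.cc x) v) := by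
  cases F with
  | inl F => exact F.hros x u v
  | inr F => exact F.1.hros x u v

lemma hsum (F : FT P K) (v : κ → ℂ) : v = ∑ σ, ∑ j, F.co σ j v • F.e σ j := by
  cases F with
  | inl F => exact F.hsum v
  | inr F => exact F.1.hsum v

lemma co_e (F : FT P K) (σ : K →+* ℂ) (j : Fin 2) (σ' : K →+* ℂ) (j' : Fin 2)
    (h : F.isLeft ∨ j = 0) :
    F.co σ j (F.e σ' j') = open Classical in if σ = σ' ∧ j = j' then 1 else 0 := by
  cases F with
  | inl F => exact F.co_e σ j σ' j'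
  | inr F =>
    have hj : j = 0 := h.resolve_left (by simp)
    exact F.1.co_e σ j σ' j' (Or.inr hj)

lemma e_one (F : FT P K) (h : ¬ F.isLeft) (σ : K →+* ℂ) : F.e σ 1 = 0 := by
  cases F with
  | inl F => exact absurd rfl h
  | inr F => exact F.1.e_one F.2 σ

lemma rho_e (F : FT P K) (x : K) (σ : K →+* ℂ) (j : Fin 2) :
    F.ρ x (F.e σ j) = σ x • F.e σ j := by
  cases F with
  | inl F => exact F.rho_e x σ j
  | inr F => exact F.1.rho_e x σ j

lemma psi_e (F : FT P K) (σ τ : K →+* ℂ) (a b : Fin 2) (h : τ ≠ ComplexEmbedding.conjugate σ) :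
    P.ψ (F.e σ a) (F.e τ b) = 0 := by
  cases F with
  | inl F => exact F.psi_e σ τ a b h
  | inr F => exact F.1.psi_e σ τ a b h

lemma e_eq (F : FT P K) (σ : K →+* ℂ) (j : Fin 2) : F.e σ j = proj F.ρ σ (F.lam j) := by
  cases F with
  | inl F => exact F.e_eq σ j
  | inr F => rfl

lemma lam_rat (F : FT P K) (j : Fin 2) : F.lam j ∈ P.Q := by
  cases F with
  | inl F => exact F.lam_rat j
  | inr F => exact F.1.lf.lam_rat j

/-- endomorphisms commuting with the number field -/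
def Comm (F : FT P K) (X : Module.End ℂ (κ → ℂ)) : Prop := ∀ x v, X (F.ρ x v) = F.ρ x (X v)

/-- the matrix of an endomorphism on an eigenspace -/
noncomputable def mat (F : FT P K) (σ : K →+* ℂ) :
    Module.End ℂ (κ → ℂ) →ₗ[ℂ] Matrix (Fin 2) (Fin 2) ℂ where
  toFun X := fun a b => F.co σ a (X (F.e σ b))
  map_add' X Y := by
    funext a b
    show F.co σ a ((X + Y) (F.e σ b)) = F.co σ a (X (F.e σ b)) + F.co σ a (Y (F.e σ b))
    rw [LinearMap.add_apply, map_add]
  map_smul' c X := by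
    funext a b
    show F.co σ a ((c • X) (F.e σ b)) = c * F.co σ a (X (F.e σ b))
    rw [LinearMap.smul_apply, map_smul, smul_eq_mul]

lemma mat_apply (F : FT P K) (σ : K →+* ℂ) (X : Module.End ℂ (κ → ℂ)) (a b : Fin 2) :
    F.mat σ X a b = F.co σ a (X (F.e σ b)) := rfl

lemma act (F : FT P K) {X : Module.End ℂ (κ → ℂ)} (hX : F.Comm X) (σ : K →+* ℂ) (j : Fin 2) :
    X (F.e σ j) = ∑ a, F.mat σ X a j • F.e σ a := by
  cases F with
  | inl F => exact UF.Comm.act hX σ j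
  | inr F => exact Fac.Comm.act hX σ j

lemma co_act (F : FT P K) {X : Module.End ℂ (κ → ℂ)} (hX : F.Comm X) (σ : K →+* ℂ) (j : Fin 2)
    (v : κ → ℂ) (h : F.isLeft ∨ j = 0) :
    F.co σ j (X v) = ∑ a, F.mat σ X j a * F.co σ a v := by
  cases F with
  | inl F => exact UF.Comm.co_act hX σ j v
  | inr F =>
    have hj : j = 0 := h.resolve_left (by simp)
    exact Fac.Comm.co_act hX σ j v (Or.inr hj)

lemma mat_mul (F : FT P K) {X : Module.End ℂ (κ → ℂ)} (hX : F.Comm X) (Y : Module.End ℂ (κ → ℂ))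
    (h : F.isLeft) (σ : K →+* ℂ) : F.mat σ (X * Y) = F.mat σ X * F.mat σ Y := by
  ext a b
  rw [Matrix.mul_apply, mat_apply, Module.End.mul_apply, F.co_act hX σ a _ (Or.inl h)]
  rfl

lemma mat_mul0 (F : FT P K) {X Y : Module.End ℂ (κ → ℂ)} (hX : F.Comm X) (hY : F.Comm Y)
    (h : ¬ F.isLeft) (σ : K →+* ℂ) :
    F.mat σ (X * Y) 0 0 = F.mat σ X 0 0 * F.mat σ Y 0 0 := by
  cases F with
  | inl F => exact absurd rfl h
  | inr F => exact Fac.Comm.mat_mul0 (F := F.1) hX hY F.2 σ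

lemma mat_neg (F : FT P K) (h : ¬ F.isLeft) (X : Module.End ℂ (κ → ℂ)) (σ : K →+* ℂ) :
    F.mat σ X 0 1 = 0 := by
  rw [mat_apply, F.e_one h, map_zero, map_zero]

lemma exists_matK (F : FT P K) (M : Module.End ℂ (κ → ℂ)) (hM : F.Comm M)
    (hr : ∀ v ∈ P.Q, M v ∈ P.Q) :
    ∃ m : Matrix (Fin 2) (Fin 2) K, ∀ σ a b, (F.isLeft ∨ a = 0) → F.mat σ M a b = σ (m a b) := by
  classical
  cases F with
  | inl F =>
    obtain ⟨m, hm⟩ := F.exists_matK M hr
    refine ⟨m, fun σ a b _ => ?_⟩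
    show F.co σ a (M (F.e σ b)) = _
    rw [F.act_e M hM m hm, map_sum, Finset.sum_eq_single a]
    · rw [map_smul, F.co_e, if_pos ⟨rfl, rfl⟩, smul_eq_mul, mul_one]
    · intro a' _ ha'
      rw [map_smul, F.co_e, if_neg (fun h => ha' h.2.symm), smul_zero]
    · intro h; exact absurd (Finset.mem_univ _) h
  | inr F =>
    obtain ⟨m, hm⟩ := F.1.exists_matK M hM hr
    refine ⟨m, fun σ a b h => ?_⟩
    have ha : a = 0 := h.resolve_left (by simp)
    exact F.1.mat_eq M hM m hm σ a b (Or.inr ha)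

lemma char_eq (F : FT P K) (h : ¬ F.isLeft) (X : Module.End ℂ (κ → ℂ)) (hX : F.Comm X) (c : ℂ)
    (hpol : ∀ u v, P.ψ (X u) v + P.ψ u (X v) = c * P.ψ u v) (σ : K →+* ℂ) :
    F.mat σ X 0 0 + F.mat (ComplexEmbedding.conjugate σ) X 0 0 = c := by
  cases F with
  | inl F => exact absurd rfl h
  | inr F => exact F.1.char_eq F.2 X hX c hpol σ

lemma conj_ne (F : FT P K) (h : ¬ F.isLeft) (σ : K →+* ℂ) :
    ComplexEmbedding.conjugate σ ≠ σ := by
  cases F with
  | inl F => exact absurd rfl h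
  | inr F => exact F.1.not_real F.2 σ

/-- the Gram matrix -/
noncomputable def gram (F : FT P K) (σ : K →+* ℂ) : Matrix (Fin 2) (Fin 2) ℂ :=
  fun a b => P.ψ (F.e σ a) (F.e (ComplexEmbedding.conjugate σ) b)

lemma gram_apply (F : FT P K) (σ : K →+* ℂ) (a b : Fin 2) :
    F.gram σ a b = P.ψ (F.e σ a) (F.e (ComplexEmbedding.conjugate σ) b) := rfl

lemma gram_inv (F : FT P K) (X : Module.End ℂ (κ → ℂ)) (hX : F.Comm X) (c : ℂ)
    (hpol : ∀ u v, P.ψ (X u) v + P.ψ u (X v) = c * P.ψ u v) (σ : K →+* ℂ) :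
    (F.mat σ X)ᵀ * F.gram σ + F.gram σ * F.mat (ComplexEmbedding.conjugate σ) X =
      c • F.gram σ := by
  ext a b
  have h1 := hpol (F.e σ a) (F.e (ComplexEmbedding.conjugate σ) b)
  rw [F.act hX, F.act hX, map_sum, map_sum, LinearMap.sum_apply] at h1
  simp only [map_smul, LinearMap.smul_apply, smul_eq_mul] at h1
  rw [Matrix.add_apply, Matrix.mul_apply, Matrix.mul_apply, Matrix.smul_apply, smul_eq_mul]
  simp only [Matrix.transpose_apply, gram_apply]
  rw [← h1]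
  congr 1
  exact Finset.sum_congr rfl fun x _ => mul_comm _ _

lemma gram_det (F : FT P K) (h : F.isLeft) (σ : K →+* ℂ) : (F.gram σ).det ≠ 0 := by
  classical
  intro h0
  obtain ⟨v, hv, hv0⟩ := Matrix.exists_vecMul_eq_zero_iff.mpr h0
  have h1 : ∑ a, v a • F.e σ a = 0 := by
    apply P.hψnd
    intro w
    rw [F.hsum w, map_sum]
    refine Finset.sum_eq_zero fun τ _ => ?_
    rw [map_sum]
    refine Finset.sum_eq_zero fun b _ => ?_
    rw [map_smul, map_sum, LinearMap.sum_apply]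
    by_cases hτ : τ = ComplexEmbedding.conjugate σ
    · subst hτ
      have h2 := congrFun hv0 b
      rw [Matrix.vecMul, dotProduct] at h2
      have h3 : ∑ a, P.ψ (v a • F.e σ a) (F.e (ComplexEmbedding.conjugate σ) b) = 0 := by
        rw [Pi.zero_apply] at h2
        rw [← h2]
        refine Finset.sum_congr rfl fun a _ => ?_
        rw [map_smul, LinearMap.smul_apply, smul_eq_mul]
        rfl
      rw [h3, smul_zero]
    · rw [Finset.sum_eq_zero (fun a _ => by
        rw [map_smul, LinearMap.smul_apply, F.psi_e _ _ _ _ hτ, smul_zero]), smul_zero]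
  apply hv
  funext a
  have h2 := congrArg (F.co σ a) h1
  rw [map_sum, map_zero, Finset.sum_eq_single a] at h2
  · rw [map_smul, F.co_e _ _ _ _ (Or.inl h), if_pos ⟨rfl, rfl⟩, smul_eq_mul, mul_one] at h2
    exact h2
  · intro b _ hb
    rw [map_smul, F.co_e _ _ _ _ (Or.inl h), if_neg (fun h => hb h.2.symm), smul_zero]
  · intro h; exact absurd (Finset.mem_univ _) h

lemma trcj (F : FT P K) (h : F.isLeft) (X : Module.End ℂ (κ → ℂ)) (hX : F.Comm X) (c : ℂ)
    (hpol : ∀ u v, P.ψ (X u) v + P.ψ u (X v) = c * P.ψ u v) (σ : K →+* ℂ) :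
    (F.mat σ X).trace + (F.mat (ComplexEmbedding.conjugate σ) X).trace = 2 * c := by
  have h1 := F.gram_inv X hX c hpol σ
  have hu : IsUnit (F.gram σ).det := isUnit_iff_ne_zero.mpr (F.gram_det h σ)
  have h2 := congrArg (fun M => (M * (F.gram σ)⁻¹).trace) h1
  simp only [add_mul, trace_add, smul_mul_assoc, trace_smul] at h2
  rw [mul_assoc, Matrix.mul_nonsing_inv _ hu, mul_one, trace_transpose, trace_mul_comm,
    ← mul_assoc, Matrix.nonsing_inv_mul _ hu, one_mul, trace_one, Fintype.card_fin,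
    smul_eq_mul] at h2
  rw [h2]
  push_cast; ring

lemma adj_identity (N : Matrix (Fin 2) (Fin 2) ℂ) :
    (N.trace • (1 : Matrix (Fin 2) (Fin 2) ℂ) - Nᵀ) * !![0, 1; -1, 0] =
      !![0, 1; -1, 0] * N := by
  ext a b
  fin_cases a <;> fin_cases b <;> simp [Matrix.mul_apply, Fin.sum_univ_two, trace_fin_two]

lemma conj_conj (F : FT P K) (h : F.isLeft) (X : Module.End ℂ (κ → ℂ)) (hX : F.Comm X) (c : ℂ)
    (hpol : ∀ u v, P.ψ (X u) v + P.ψ u (X v) = c * P.ψ u v) (σ : K →+* ℂ) :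
    (F.mat (ComplexEmbedding.conjugate σ) X -
      (((F.mat (ComplexEmbedding.conjugate σ) X).trace - c) / 2) • (1 : Matrix _ _ ℂ)) *
      ((F.gram σ)⁻¹ * !![0, 1; -1, 0]) =
    ((F.gram σ)⁻¹ * !![0, 1; -1, 0]) *
      (F.mat σ X - (((F.mat σ X).trace - c) / 2) • (1 : Matrix _ _ ℂ)) := by
  have h1 := F.gram_inv X hX c hpol σ
  have h2 := F.trcj h X hX c hpol σ
  have hu : IsUnit (F.gram σ).det := isUnit_iff_ne_zero.mpr (F.gram_det h σ)
  obtain ⟨A, hA⟩ : ∃ A, A = F.mat σ X := ⟨_, rfl⟩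
  obtain ⟨A', hA'⟩ : ∃ A', A' = F.mat (ComplexEmbedding.conjugate σ) X := ⟨_, rfl⟩
  rw [← hA, ← hA'] at h1 h2 ⊢
  obtain ⟨N, hN⟩ : ∃ N, N = A - ((A.trace - c) / 2) • (1 : Matrix (Fin 2) (Fin 2) ℂ) := ⟨_, rfl⟩
  have hNt : N.trace = c := by
    rw [hN, trace_sub, trace_smul, trace_one, Fintype.card_fin, smul_eq_mul]
    push_cast; ring
  have h3 := adj_identity N
  rw [hNt, hN, transpose_sub, transpose_smul, transpose_one, ← hN] at h3
  have h4 : A' * (F.gram σ)⁻¹ = (F.gram σ)⁻¹ * (c • 1 - Aᵀ) := by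
    have h5 : F.gram σ * A' = (c • 1 - Aᵀ) * F.gram σ := by
      rw [sub_mul, smul_mul_assoc, one_mul, ← h1]
      abel
    calc A' * (F.gram σ)⁻¹ = ((F.gram σ)⁻¹ * F.gram σ) * A' * (F.gram σ)⁻¹ := by
          rw [Matrix.nonsing_inv_mul _ hu, one_mul]
      _ = (F.gram σ)⁻¹ * (F.gram σ * A') * (F.gram σ)⁻¹ := by rw [mul_assoc (F.gram σ)⁻¹]
      _ = _ := by
          rw [h5, mul_assoc, mul_assoc (c • 1 - Aᵀ), Matrix.mul_nonsing_inv _ hu, mul_one]
  have h6 : (A'.trace - c) / 2 = -((A.trace - c) / 2) := by linear_combination h2 / 2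
  rw [h6, ← hN, mul_assoc, ← h3, ← mul_assoc, sub_mul, h4]
  simp only [smul_mul_assoc, one_mul, ← mul_assoc]
  congr 1
  rw [mul_sub, mul_sub, mul_sub, mul_smul_comm, mul_smul_comm, mul_one]
  module

end FT

end Pool.Agent.Helper7
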